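import Pool.Agent.Y458.US.Fin

set_option autoImplicit false

/-!
# Unique subgraphs: the threshold for the number of missing edges

A graph on `n` vertices with `t` missing edges has `2 ^ (C(n,2) - t)` spanning subgraphs. Almost all
of them are unique, for almost all graphs, as soon as `t ≥ log₂ (n!) + 300 (log n)²`, and no graph at
all has a positive proportion of unique subgraphs when `t ≤ log₂ (n!) - s` with `s → ∞`. Here
`log₂ (n!) = n log₂ n - n log₂ e + O(log n)`.
-/

namespace Pool.Agent.Results.MP_618f8d_co.SharpThreshold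

open Filter Topology

/-- `H` is a unique subgraph of `G`: `H` is a spanning subgraph of `G` and no other spanning
subgraph of `G` is isomorphic to `H`. -/
def IsUniqueSubgraph {V : Type*} (G H : SimpleGraph V) : Prop :=
  H ≤ G ∧ ∀ H' : SimpleGraph V, H' ≤ G → Nonempty (H' ≃g H) → H' = H

/-- `u(G)`: the number of unique subgraphs of `G`. -/
noncomputable def numUnique {V : Type*} (G : SimpleGraph V) : ℕ :=
  {H : SimpleGraph V | IsUniqueSubgraph G H}.ncard

/-- The probability that a graph chosen uniformly at random among all graphs on `n` labelled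
vertices with exactly `C(n,2) - t` edges has at least `c * 2 ^ (C(n,2) - t)` unique subgraphs. -/
noncomputable def prob (n t : ℕ) (c : ℝ) : ℝ :=
  ({G : SimpleGraph (Fin n) | G.edgeSet.ncard = n.choose 2 - t ∧
      c * 2 ^ (n.choose 2 - t) ≤ (numUnique G : ℝ)}.ncard : ℝ) /
    ({G : SimpleGraph (Fin n) | G.edgeSet.ncard = n.choose 2 - t}.ncard : ℝ)

/-- **Theorem.** (1) For every `c < 1`, uniformly in the number `t` of missing edges,
`log₂ (n!) + 300 (log n)² ≤ t ≤ n² / 1000`, the probability that a random graph on `n` vertices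
with `t` missing edges has at least `c 2 ^ (C(n,2) - t)` unique subgraphs tends to `1`.
(2) Every graph on `n` vertices with `t` missing edges has at most
`(1 + o(1)) 2 ^ (t - log₂ (n!)) 2 ^ (C(n,2) - t)` unique subgraphs, uniformly in `t`.
(3) For `t = ⌊n log n / log 2⌋` and every `c < 1`, almost all graphs with `t` missing edges have at
least `c 2 ^ (C(n,2) - t)` unique subgraphs, and for all large `n` there is such a graph.
(4) For all large `n` some graph on `n` vertices has at least
`(2 ^ C(n,2) / n!) exp (-209 (log n)²)` unique subgraphs. -/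
theorem result :
    (∀ c < (1 : ℝ), ∀ ε > (0 : ℝ), ∀ᶠ n : ℕ in atTop, ∀ t : ℕ,
      Real.logb 2 n.factorial + 300 * (Real.log n) ^ 2 ≤ t → (t : ℝ) ≤ (n : ℝ) ^ 2 / 1000 →
        1 - ε ≤ prob n t c) ∧
    (∀ ε > (0 : ℝ), ∀ᶠ n : ℕ in atTop, ∀ t ≤ n.choose 2,
      ∀ G : SimpleGraph (Fin n), G.edgeSet.ncard = n.choose 2 - t →
        (numUnique G : ℝ) ≤
          (1 + ε) * (2 : ℝ) ^ ((t : ℝ) - Real.logb 2 n.factorial) * 2 ^ (n.choose 2 - t)) ∧
    (∀ c < (1 : ℝ),
      Tendsto (fun n : ℕ => prob n ⌊(n : ℝ) * Real.log n / Real.log 2⌋₊ c) atTop (𝓝 1) ∧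
      ∀ᶠ n : ℕ in atTop, ∃ G : SimpleGraph (Fin n),
        G.edgeSet.ncard = n.choose 2 - ⌊(n : ℝ) * Real.log n / Real.log 2⌋₊ ∧
        c * 2 ^ (n.choose 2 - ⌊(n : ℝ) * Real.log n / Real.log 2⌋₊) ≤ (numUnique G : ℝ)) ∧
    ∀ᶠ n : ℕ in atTop, ∃ G : SimpleGraph (Fin n),
      2 ^ (n.choose 2) / n.factorial * Real.exp (-(209 * (Real.log n) ^ 2)) ≤
        (numUnique G : ℝ) := by
  exact Pool.Agent.Y458.US.final

end Pool.Agent.Results.MP_618f8d_co.SharpThreshold
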